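import Mathlib

namespace Pool.Agent.Results.MP_484523_pr.Sparse

/-- Majority of three bits. -/
def maj (a b c : Bool) : Bool := (a && b) || (a && c) || (b && c)

/-- Trajectory of NEC-voting; index `t` here is time `t - 1` of the problem file. -/
def TR (y : ℤ × ℤ → Bool) : ℕ → ℤ × ℤ → Bool
  | 0, s => y s
  | t + 1, s => maj (TR y t s) (TR y t (s + (1, 0))) (TR y t (s + (0, 1)))

/-- Attractors. -/
def Attractor (y : ℤ × ℤ → Bool) : Prop :=
  ∀ y' : ℤ × ℤ → Bool, {s | y' s ≠ y s}.Finite →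
    {p : (ℤ × ℤ) × ℕ | TR y' p.2 p.1 ≠ TR y p.2 p.1}.Finite

def y0 (s : ℤ × ℤ) : Bool := decide (s.1 % 2 = 0 ∧ s.2 = 0)

lemma erode (y : ℤ × ℤ → Bool) (hy : {s | y s ≠ y0 s}.Finite) : ∃ R : ℕ, ∀ t s,
    TR y (t + 1) s = true → -(R : ℤ) ≤ s.1 ∧ -(R : ℤ) ≤ s.2 ∧ s.1 + s.2 + t ≤ R := by
  obtain ⟨R, hR⟩ := (hy.image fun s : ℤ × ℤ => s.1.natAbs + s.2.natAbs).bddAbove
  have h0 : ∀ s : ℤ × ℤ, y s = true → (s.1 % 2 = 0 ∧ s.2 = 0) ∨ s.1.natAbs + s.2.natAbs ≤ R := by
    intro s hs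
    by_cases h : y s = y0 s
    · left; simpa [y0, hs] using h.symm
    · exact Or.inr (hR ⟨s, h, rfl⟩)
  refine ⟨R + 1, fun t => ?_⟩
  induction t with
  | zero =>
    rintro ⟨a, b⟩ h
    simp only [TR, maj, Bool.or_eq_true, Bool.and_eq_true, Prod.mk_add_mk] at h
    rcases h with (⟨h1, h2⟩ | ⟨h1, h2⟩) | ⟨h1, h2⟩ <;>
    · have := h0 _ h1
      have := h0 _ h2
      simp only at *
      omega
  | succ t ih =>
    rintro ⟨a, b⟩ h
    rw [TR] at h
    simp only [maj, Bool.or_eq_true, Bool.and_eq_true, Prod.mk_add_mk] at h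
    rcases h with (⟨h1, h2⟩ | ⟨h1, h2⟩) | ⟨h1, h2⟩ <;>
    · have := ih _ h1
      have := ih _ h2
      simp only at *
      omega

theorem result : ∃ y : ℤ × ℤ → Bool, Attractor y ∧ {s | y s = true}.Infinite ∧
    {s | y s = false}.Infinite := by
  refine ⟨y0, fun y hy => ?_, ?_, ?_⟩
  · obtain ⟨R, hR⟩ := erode y hy
    obtain ⟨R', hR'⟩ := erode y0 (by simp)
    refine ((hy.prod (Set.finite_singleton 0)).union (((Set.finite_Icc (-(R + R' : ℤ))
      (2 * (R + R'))).prod (Set.finite_Icc (-(R + R' : ℤ)) (2 * (R + R')))).prod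
      (Set.finite_Icc 0 (3 * (R + R') + 1)))).subset ?_
    rintro ⟨⟨a, b⟩, _ | t⟩ h
    · exact Or.inl ⟨h, rfl⟩
    · right
      simp only [Set.mem_prod, Set.mem_Icc]
      cases h1 : TR y (t + 1) (a, b)
      · have := hR' t (a, b) (by simpa [h1] using h)
        simp only at this
        omega
      · have := hR t _ h1
        simp only at this
        omega
  · refine Set.infinite_of_injective_forall_mem (f := fun n : ℤ => (2 * n, (0 : ℤ)))
      (fun a b h => by simpa using h) fun n => by simp [y0]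
  · refine Set.infinite_of_injective_forall_mem (f := fun n : ℤ => (n, (1 : ℤ)))
      (fun a b h => by simpa using h) fun n => by simp [y0]

end Pool.Agent.Results.MP_484523_pr.Sparse
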